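import Mathlib
import Pool.Agent.H715R2.NormForm

/-! Forms whose hyperplanes are invariant under an irreducible integral matrix are proportional to
integral forms. -/

set_option autoImplicit false

open NumberField Matrix Polynomial H715R2

namespace Pool.Agent.TH680.OP

variable {d : ℕ}

/-- a linear form that vanishes where `l` vanishes is a multiple of `l` -/
theorem exists_mul (l m : Fin d → ℝ) (hl : l ≠ 0)
    (h : ∀ x : Fin d → ℝ, ∑ j, l j * x j = 0 → ∑ j, m j * x j = 0) : ∃ c : ℝ, m = c • l := by
  classical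
  obtain ⟨j₀, hj₀⟩ : ∃ j, l j ≠ 0 := by
    by_contra hcon
    push Not at hcon
    exact hl (funext hcon)
  refine ⟨m j₀ / l j₀, ?_⟩
  funext j
  have h1 := h (fun i => (if i = j then l j₀ else 0) - (if i = j₀ then l j else 0)) (by
    simp only [mul_sub, Finset.sum_sub_distrib, mul_ite, mul_zero, Finset.sum_ite_eq',
      Finset.mem_univ, if_true]
    ring)
  simp only [mul_sub, Finset.sum_sub_distrib, mul_ite, mul_zero, Finset.sum_ite_eq',
    Finset.mem_univ, if_true] at h1
  simp only [Pi.smul_apply, smul_eq_mul]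
  field_simp
  linarith

theorem propInt_of_rs (hd : 0 < d) {L : Fin d → Fin d → ℝ} (hL : (Matrix.of L).det ≠ 0)
    {A : Matrix (Fin d) (Fin d) ℤ}
    (hirr : Irreducible (A.charpoly.map (Int.castRingHom ℚ)))
    (hinv : ∀ i : Fin d, ∀ x : Fin d → ℝ, ∑ j, L i j * x j = 0 →
      ∑ j, L i j * ((A.map (Int.cast : ℤ → ℝ)).mulVec x) j = 0) :
    PropInt (Matrix.of L) := by
  classical
  set AR : Matrix (Fin d) (Fin d) ℝ := A.map (Int.cast : ℤ → ℝ) with hAR
  have hLi : ∀ i, L i ≠ 0 := by
    intro i hi
    apply hL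
    exact Matrix.det_eq_zero_of_row_eq_zero i fun j => congrFun hi j
  -- the eigenvalues
  have h1 : ∀ i, ∃ c : ℝ, (L i) ᵥ* AR = c • L i := by
    intro i
    apply exists_mul _ _ (hLi i)
    intro x hx
    have h2 := hinv i x hx
    have h3 : ∑ j, ((L i) ᵥ* AR) j * x j = ∑ j, L i j * (AR.mulVec x) j := by
      have := Matrix.dotProduct_mulVec (L i) AR x
      simpa [dotProduct] using this.symm
    rw [h3]
    exact h2
  choose lam hlam using h1
  have hmat : Matrix.of L * AR = Matrix.diagonal lam * Matrix.of L := by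
    ext i j
    rw [Matrix.diagonal_mul]
    have := congrFun (hlam i) j
    simpa [Matrix.mul_apply, Matrix.vecMul, dotProduct] using this
  have hunit : IsUnit (Matrix.of L) := (Matrix.isUnit_iff_isUnit_det _).2 (isUnit_iff_ne_zero.2 hL)
  have hchar : AR.charpoly = ∏ i, (X - C (lam i)) := by
    obtain ⟨U, hU⟩ := hunit
    have h2 : AR = (U⁻¹ : (Matrix (Fin d) (Fin d) ℝ)ˣ).val * Matrix.diagonal lam * U.val := by
      rw [mul_assoc, hU, ← hmat, ← hU, ← mul_assoc, Units.inv_mul, one_mul]
    rw [h2, Matrix.coe_units_inv, Matrix.charpoly_units_conj', Matrix.charpoly_diagonal]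
  set p : ℚ[X] := A.charpoly.map (Int.castRingHom ℚ) with hp
  have hpm : p.Monic := (Matrix.charpoly_monic A).map _
  have hpR : p.map (algebraMap ℚ ℝ) = ∏ i, (X - C (lam i)) := by
    rw [← hchar, hp, Polynomial.map_map, hAR]
    have h3 := Matrix.charpoly_map A (Int.castRingHom ℝ)
    have h4 : (algebraMap ℚ ℝ).comp (Int.castRingHom ℚ) = Int.castRingHom ℝ := RingHom.ext_int _ _
    rw [h4, ← h3]
    rfl
  have hdeg : p.natDegree = d := by
    have h3 := Polynomial.natDegree_map_eq_of_injective (algebraMap ℚ ℝ).injective p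
    rw [← h3, hpR, Polynomial.natDegree_prod_of_monic _ _ fun i _ => monic_X_sub_C _]
    simp
  -- distinct eigenvalues
  have hinj : Function.Injective lam := by
    have hsep : p.Separable := hirr.separable
    have h3 : (∏ i, (X - C (lam i))).Separable := by
      rw [← hpR]
      exact hsep.map
    exact Polynomial.separable_prod_X_sub_C_iff.1 h3
  -- the field
  have hfact : Fact (Irreducible p) := ⟨hirr⟩
  have hfin : FiniteDimensional ℚ (AdjoinRoot p) := hpm.finite_adjoinRoot
  have hNF : NumberField (AdjoinRoot p) :=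
    { to_charZero := charZero_of_injective_algebraMap (algebraMap ℚ (AdjoinRoot p)).injective
      to_finiteDimensional := hfin }
  have hroot : ∀ i, (p.map (algebraMap ℚ ℂ)).eval (lam i : ℂ) = 0 := by
    intro i
    have h3 : p.map (algebraMap ℚ ℂ) = (∏ i, (X - C (lam i))).map Complex.ofRealHom := by
      rw [← hpR, Polynomial.map_map (algebraMap ℚ ℝ) Complex.ofRealHom p,
        show Complex.ofRealHom.comp (algebraMap ℚ ℝ) = algebraMap ℚ ℂ from RingHom.ext_rat _ _]
    rw [h3, Polynomial.map_prod, Polynomial.eval_prod]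
    exact Finset.prod_eq_zero (Finset.mem_univ i) (by simp)
  let t : Fin d → (AdjoinRoot p →+* ℂ) := fun i =>
    AdjoinRoot.lift (algebraMap ℚ ℂ) (lam i : ℂ) (by rw [← Polynomial.eval_map]; exact hroot i)
  have ht_root : ∀ i, t i (AdjoinRoot.root p) = (lam i : ℂ) := fun i =>
    AdjoinRoot.lift_root _
  have ht_inj : Function.Injective t := by
    intro i j hij
    apply hinj
    have h3 := congrArg (fun φ : AdjoinRoot p →+* ℂ => φ (AdjoinRoot.root p)) hij
    simp only [ht_root] at h3
    exact_mod_cast h3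
  have ht_bij : Function.Bijective t := by
    rw [Fintype.bijective_iff_injective_and_card]
    refine ⟨ht_inj, ?_⟩
    rw [Fintype.card_fin, NumberField.Embeddings.card (AdjoinRoot p) ℂ]
    have h3 := (AdjoinRoot.powerBasis hirr.ne_zero).finrank
    rw [h3, AdjoinRoot.powerBasis_dim, hdeg]
  -- the eigenvector
  set AK : Matrix (Fin d) (Fin d) (AdjoinRoot p) := A.map (Int.cast : ℤ → AdjoinRoot p) with hAK
  have hdet : (Matrix.scalar (Fin d) (AdjoinRoot.root p) - AK).det = 0 := by
    rw [← Matrix.eval_charpoly]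
    have h3 := Matrix.charpoly_map A (Int.castRingHom (AdjoinRoot p))
    have h4 : AK.charpoly = p.map (algebraMap ℚ (AdjoinRoot p)) := by
      have h5 : (algebraMap ℚ (AdjoinRoot p)).comp (Int.castRingHom ℚ) =
          Int.castRingHom (AdjoinRoot p) := RingHom.ext_int _ _
      have h6 := Polynomial.map_map (Int.castRingHom ℚ) (algebraMap ℚ (AdjoinRoot p)) A.charpoly
      rw [h5, ← h3] at h6
      exact h6.symm
    rw [h4, Polynomial.eval_map]
    exact AdjoinRoot.eval₂_root p
  obtain ⟨β, hβ0, hβ⟩ := Matrix.exists_vecMul_eq_zero_iff.2 hdet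
  have hβ' : β ᵥ* AK = AdjoinRoot.root p • β := by
    rw [Matrix.vecMul_sub, sub_eq_zero] at hβ
    rw [← hβ]
    ext j
    simp [Matrix.vecMul_diagonal, Matrix.scalar_apply, mul_comm]
  -- comparison
  have hcmp : ∀ i, ∃ c : ℂ, ∀ j, (L i j : ℂ) = c * t i (β j) := by
    intro i
    set v : Fin d → ℂ := fun j => t i (β j) with hv
    have hv0 : v ≠ 0 := by
      intro h0
      apply hβ0
      funext j
      have := congrFun h0 j
      exact (map_eq_zero (t i)).1 this
    set AC : Matrix (Fin d) (Fin d) ℂ := A.map (Int.cast : ℤ → ℂ) with hAC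
    have hvA : v ᵥ* AC = (lam i : ℂ) • v := by
      funext j
      have h3 := congrArg (t i) (congrFun hβ' j)
      simp only [Matrix.vecMul, dotProduct, Pi.smul_apply, smul_eq_mul, map_sum, map_mul,
        ht_root, hAK, Matrix.map_apply, map_intCast] at h3
      simpa [Matrix.vecMul, dotProduct, hv, hAC] using h3
    set LC : Matrix (Fin d) (Fin d) ℂ := (Matrix.of L).map Complex.ofRealHom with hLC
    have hLCu : IsUnit LC := by
      rw [Matrix.isUnit_iff_isUnit_det, isUnit_iff_ne_zero, hLC]
      have h3 := (Complex.ofRealHom).map_det (Matrix.of L)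
      rw [RingHom.mapMatrix_apply] at h3
      rw [← h3]
      simpa using hL
    obtain ⟨U, hU⟩ := hLCu
    set w : Fin d → ℂ := v ᵥ* (U⁻¹ : (Matrix (Fin d) (Fin d) ℂ)ˣ).val with hw
    have hwv : w ᵥ* LC = v := by
      rw [hw, Matrix.vecMul_vecMul, ← hU, Units.inv_mul, Matrix.vecMul_one]
    have hmatC : LC * AC = Matrix.diagonal (fun k => (lam k : ℂ)) * LC := by
      have h3 := congrArg (fun M : Matrix (Fin d) (Fin d) ℝ => M.map Complex.ofRealHom) hmat
      simp only [Matrix.map_mul] at h3
      have h4 : AR.map Complex.ofRealHom = AC := by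
        ext a b
        simp [hAR, hAC]
      have h5 : (Matrix.diagonal lam).map Complex.ofRealHom =
          Matrix.diagonal (fun k => (lam k : ℂ)) := by
        rw [Matrix.diagonal_map (map_zero _)]
        rfl
      rw [h4, h5] at h3
      exact h3
    have hw2 : ∀ k, w k * (lam k : ℂ) = (lam i : ℂ) * w k := by
      have h3 : (w ᵥ* Matrix.diagonal (fun k => (lam k : ℂ))) ᵥ* LC = ((lam i : ℂ) • w) ᵥ* LC := by
        rw [Matrix.vecMul_vecMul, ← hmatC, ← Matrix.vecMul_vecMul, hwv, hvA,
          Matrix.smul_vecMul, hwv]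
      have h4 := congrArg (fun z => z ᵥ* (U⁻¹ : (Matrix (Fin d) (Fin d) ℂ)ˣ).val) h3
      simp only [Matrix.vecMul_vecMul, ← hU, Units.mul_inv, Matrix.mul_one] at h4
      intro k
      have h5 := congrFun h4 k
      simpa [Matrix.vecMul_diagonal] using h5
    have hw3 : ∀ k, k ≠ i → w k = 0 := by
      intro k hk
      have h3 := hw2 k
      have h4 : ((lam k : ℂ) - lam i) * w k = 0 := by linear_combination h3
      rcases mul_eq_zero.1 h4 with h5 | h5
      · exfalso
        apply hk
        apply hinj
        have h6 : (lam k : ℂ) = lam i := by linear_combination h5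
        exact_mod_cast h6
      · exact h5
    have hvw : ∀ j, v j = w i * (L i j : ℂ) := by
      intro j
      rw [← hwv, Matrix.vecMul, dotProduct, Finset.sum_eq_single i]
      · simp [hLC]
      · intro k _ hk
        rw [hw3 k hk, zero_mul]
      · intro h; exact absurd (Finset.mem_univ i) h
    have hwi : w i ≠ 0 := by
      intro h0
      apply hv0
      funext j
      rw [hvw j, h0, zero_mul]
      rfl
    refine ⟨(w i)⁻¹, fun j => ?_⟩
    rw [show t i (β j) = v j from rfl, hvw j]
    field_simp
  choose c hc using hcmp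
  exact norm_form hd β t ht_bij c (Matrix.of L) hL (fun i j => hc i j)

end Pool.Agent.TH680.OP
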